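import Mathlib

set_option autoImplicit false

namespace Pool.Agent.Helper429.TF

open scoped commutatorElement

/-- the class two group of pairs (vector, matrix) over a commutative ring -/
@[ext] structure Ht (R : Type) (n : ℕ) : Type where
  /-- vector part -/
  a : Fin n → R
  /-- matrix part -/
  M : Fin n → Fin n → R

namespace Ht

variable {R : Type} [CommRing R] {n : ℕ}

instance : Mul (Ht R n) := ⟨fun x y => ⟨x.a + y.a, fun i j => x.M i j + y.M i j + x.a i * y.a j⟩⟩
instance : One (Ht R n) := ⟨⟨0, 0⟩⟩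
instance : Inv (Ht R n) := ⟨fun x => ⟨-x.a, fun i j => -x.M i j + x.a i * x.a j⟩⟩

@[simp] lemma mul_a (x y : Ht R n) : (x * y).a = x.a + y.a := rfl
@[simp] lemma mul_M (x y : Ht R n) (i j : Fin n) :
    (x * y).M i j = x.M i j + y.M i j + x.a i * y.a j := rfl
@[simp] lemma one_a : (1 : Ht R n).a = 0 := rfl
@[simp] lemma one_M : (1 : Ht R n).M = 0 := rfl
@[simp] lemma inv_a (x : Ht R n) : (x⁻¹).a = -x.a := rfl
@[simp] lemma inv_M (x : Ht R n) (i j : Fin n) : (x⁻¹).M i j = -x.M i j + x.a i * x.a j := rfl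

lemma ext' {x y : Ht R n} (h1 : ∀ i, x.a i = y.a i) (h2 : ∀ i j, x.M i j = y.M i j) : x = y :=
  Ht.ext (funext h1) (funext fun i => funext fun j => h2 i j)

instance : Group (Ht R n) where
  mul_assoc x y z := by
    refine ext' (fun i => ?_) (fun i j => ?_)
    · simp [add_assoc]
    · simp only [mul_M, mul_a, Pi.add_apply]; ring
  one_mul x := by
    refine ext' (fun i => ?_) (fun i j => ?_)
    · simp
    · simp
  mul_one x := by
    refine ext' (fun i => ?_) (fun i j => ?_)
    · simp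
    · simp
  inv_mul_cancel x := by
    refine ext' (fun i => ?_) (fun i j => ?_)
    · simp
    · simp

/-- central elements -/
def io (M : Fin n → Fin n → R) : Ht R n := ⟨0, M⟩

@[simp] lemma io_a (M : Fin n → Fin n → R) : (io M).a = 0 := rfl
@[simp] lemma io_M (M : Fin n → Fin n → R) : (io M).M = M := rfl

lemma io_mul (M M' : Fin n → Fin n → R) : io M * io M' = io (M + M') := by
  refine ext' (fun i => ?_) (fun i j => ?_) <;> simp

lemma io_comm (M : Fin n → Fin n → R) (x : Ht R n) : io M * x = x * io M := by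
  refine ext' (fun i => ?_) (fun i j => ?_) <;> simp [add_comm]

lemma io_inv (M : Fin n → Fin n → R) : (io M)⁻¹ = io (-M) := by
  refine ext' (fun i => ?_) (fun i j => ?_) <;> simp

lemma eq_io {x : Ht R n} (h : x.a = 0) : x = io x.M := Ht.ext h rfl

lemma comm_a (x y : Ht R n) : (⁅x, y⁆).a = 0 := by
  rw [commutatorElement_def]
  simp

lemma class_two (x y z : Ht R n) : ⁅⁅x, y⁆, z⁆ = 1 := by
  rw [commutatorElement_eq_one_iff_mul_comm, eq_io (comm_a x y), io_comm]

lemma io_pow (M : Fin n → Fin n → R) (m : ℕ) : (io M) ^ m = io (m • M) := by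
  induction m with
  | zero => simp; rfl
  | succ m ih => rw [pow_succ, ih, io_mul, succ_nsmul]

lemma pow_a (x : Ht R n) (m : ℕ) : (x ^ m).a = m • x.a := by
  induction m with
  | zero => simp
  | succ m ih => rw [pow_succ, mul_a, ih, succ_nsmul]

lemma torsion_free (x : Ht ℤ n) (m : ℕ) (hm : 0 < m) (h : x ^ m = 1) : x = 1 := by
  have h1 : x.a = 0 := by
    have h2 := congrArg Ht.a h
    rw [pow_a, one_a] at h2
    funext i
    have h3 := congrFun h2 i
    simp only [Pi.smul_apply, nsmul_eq_mul, Pi.zero_apply, mul_eq_zero, Nat.cast_eq_zero] at h3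
    rcases h3 with h3 | h3
    · omega
    · exact h3
  rw [eq_io h1] at h ⊢
  rw [io_pow] at h
  have h4 := congrArg Ht.M h
  simp only [io_M, one_M] at h4
  have h5 : x.M = 0 := by
    funext i j
    have h3 := congrFun (congrFun h4 i) j
    simp only [Pi.smul_apply, nsmul_eq_mul, Pi.zero_apply, mul_eq_zero, Nat.cast_eq_zero] at h3
    rcases h3 with h3 | h3
    · omega
    · exact h3
  rw [h5]
  rfl

/-- reduction along a ring homomorphism -/
def red {S : Type} [CommRing S] (f : R →+* S) : Ht R n →* Ht S n where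
  toFun x := ⟨fun i => f (x.a i), fun i j => f (x.M i j)⟩
  map_one' := by
    refine ext' (fun i => ?_) (fun i j => ?_) <;> simp
  map_mul' x y := by
    refine ext' (fun i => ?_) (fun i j => ?_) <;> simp

@[simp] lemma red_a {S : Type} [CommRing S] (f : R →+* S) (x : Ht R n) (i : Fin n) :
    (red f x).a i = f (x.a i) := rfl
@[simp] lemma red_M {S : Type} [CommRing S] (f : R →+* S) (x : Ht R n) (i j : Fin n) :
    (red f x).M i j = f (x.M i j) := rfl

end Ht

open Ht

/-- square matrices over the field with two elements -/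
abbrev Mt (n : ℕ) : Type := Fin n → Fin n → ZMod 2
/-- the finite class two group -/
abbrev Gm (n : ℕ) : Type := Ht (ZMod 2) n

/-- tensor square -/
def tp {n : ℕ} (a : Fin n → ZMod 2) : Mt n := fun i j => a i * a j

lemma sq {n : ℕ} (x : Gm n) : x * x = io (tp x.a) := by
  refine ext' (fun i => ?_) (fun i j => ?_)
  · exact CharTwo.add_self_eq_zero _
  · simp only [mul_M, io_M, tp]
    rw [CharTwo.add_self_eq_zero, zero_add]

lemma mt_add_self {n : ℕ} (M : Mt n) : M + M = 0 := by
  ext i j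
  exact CharTwo.add_self_eq_zero _

lemma mt_neg {n : ℕ} (M : Mt n) : -M = M := by
  ext i j
  exact CharTwo.neg_eq _

lemma io_inv2 {n : ℕ} (M : Mt n) : (io M)⁻¹ = io M := by rw [io_inv, mt_neg]

/-- the identity matrix -/
def Id (n : ℕ) : Mt n := fun i j => if i = j then 1 else 0

/-- functions on the finite class two group -/
abbrev Fn (R : Type) (n : ℕ) : Type := Gm n → R

section

variable {R : Type} [CommRing R] {n : ℕ}

/-- left translation of functions -/
def Lt (g : Gm n) (v : Fn R n) : Fn R n := fun x => v (g⁻¹ * x)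

lemma Lt_apply (g : Gm n) (v : Fn R n) (x : Gm n) : Lt g v x = v (g⁻¹ * x) := rfl
@[simp] lemma Lt_one (v : Fn R n) : Lt 1 v = v := by ext x; simp [Lt]
lemma Lt_Lt (g h : Gm n) (v : Fn R n) : Lt g (Lt h v) = Lt (g * h) v := by
  ext x; simp [Lt, mul_assoc]
@[simp] lemma Lt_zero (g : Gm n) : Lt g (0 : Fn R n) = 0 := by ext x; simp [Lt]
@[simp] lemma Lt_add (g : Gm n) (v w : Fn R n) : Lt g (v + w) = Lt g v + Lt g w := by
  ext x; simp [Lt]
@[simp] lemma Lt_neg (g : Gm n) (v : Fn R n) : Lt g (-v) = -Lt g v := by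
  ext x; simp [Lt]

/-- the bilinear map attached to a weight on matrices -/
def bb (b : Mt n → R) (v w : Fn R n) : Fn R n :=
  fun x => ∑ M : Mt n, b M * v (x * io M) * w (x * io (M + Id n))

variable (b : Mt n → R)

lemma bb_add_left (v v' w : Fn R n) : bb b (v + v') w = bb b v w + bb b v' w := by
  ext x
  simp only [bb, Pi.add_apply, ← Finset.sum_add_distrib]
  refine Finset.sum_congr rfl fun M _ => ?_
  ring

lemma bb_add_right (v w w' : Fn R n) : bb b v (w + w') = bb b v w + bb b v w' := by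
  ext x
  simp only [bb, Pi.add_apply, ← Finset.sum_add_distrib]
  refine Finset.sum_congr rfl fun M _ => ?_
  ring

@[simp] lemma bb_zero_left (w : Fn R n) : bb b 0 w = 0 := by ext x; simp [bb]
@[simp] lemma bb_zero_right (w : Fn R n) : bb b w 0 = 0 := by ext x; simp [bb]
lemma bb_neg_left (v w : Fn R n) : bb b (-v) w = -bb b v w := by ext x; simp [bb]

lemma bb_Lt (g : Gm n) (v w : Fn R n) : bb b (Lt g v) (Lt g w) = Lt g (bb b v w) := by
  ext x
  simp only [bb, Lt, mul_assoc]

/-- the key computation -/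
lemma bb_shift (z : Mt n) (v : Fn R n) (x : Gm n) :
    (bb b (Lt (io z) v) v - bb b v (Lt (io z) v)) x =
      ∑ M : Mt n, (b (M + z) - b M) * (v (x * io M) * v (x * io (M + z + Id n))) := by
  have h1 : ∀ y : Gm n, Lt (io z) v y = v (y * io z) := by
    intro y
    rw [Lt_apply, io_inv2, io_comm]
  have h2 : bb b (Lt (io z) v) v x =
      ∑ M : Mt n, b (M + z) * (v (x * io M) * v (x * io (M + z + Id n))) := by
    refine Fintype.sum_equiv (Equiv.addRight z) _ _ ?_
    intro M
    have h4 : (Equiv.addRight z M) + z = M := by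
      simp only [Equiv.coe_addRight]
      rw [add_assoc, mt_add_self, add_zero]
    rw [h4, h1]
    simp only [mul_assoc, io_mul, Equiv.coe_addRight]
  have h3 : bb b v (Lt (io z) v) x =
      ∑ M : Mt n, b M * (v (x * io M) * v (x * io (M + z + Id n))) := by
    simp only [bb, h1]
    refine Finset.sum_congr rfl fun M _ => ?_
    simp only [mul_assoc, io_mul]
    rw [show M + Id n + z = M + z + Id n by abel]
  rw [Pi.sub_apply, h2, h3, ← Finset.sum_sub_distrib]
  refine Finset.sum_congr rfl fun M _ => ?_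
  ring

lemma bb_shift_zero (z : Mt n) (hz : ∀ M, b (M + z) = b M) (v : Fn R n) :
    bb b (Lt (io z) v) v - bb b v (Lt (io z) v) = 0 := by
  ext x
  rw [bb_shift]
  simp [hz]

end

/-- semidirect products -/
@[ext] structure Eg (R : Type) (n : ℕ) (b : Mt n → R) {P : Type} [Group P] (r : P →* Gm n) :
    Type where
  /-- module part -/
  v : Fn R n
  /-- central part -/
  s : Fn R n
  /-- top part -/
  g : P

namespace Eg

variable {R : Type} [CommRing R] {n : ℕ} {b : Mt n → R} {P : Type} [Group P] {r : P →* Gm n}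

instance : Mul (Eg R n b r) :=
  ⟨fun x y => ⟨x.v + Lt (r x.g) y.v, x.s + Lt (r x.g) y.s + bb b x.v (Lt (r x.g) y.v),
    x.g * y.g⟩⟩
instance : One (Eg R n b r) := ⟨⟨0, 0, 1⟩⟩
instance : Inv (Eg R n b r) :=
  ⟨fun x => ⟨-Lt (r x.g)⁻¹ x.v,
    -Lt (r x.g)⁻¹ x.s + bb b (Lt (r x.g)⁻¹ x.v) (Lt (r x.g)⁻¹ x.v), x.g⁻¹⟩⟩

@[simp] lemma mul_v (x y : Eg R n b r) : (x * y).v = x.v + Lt (r x.g) y.v := rfl
@[simp] lemma mul_s (x y : Eg R n b r) :
    (x * y).s = x.s + Lt (r x.g) y.s + bb b x.v (Lt (r x.g) y.v) := rfl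
@[simp] lemma mul_g (x y : Eg R n b r) : (x * y).g = x.g * y.g := rfl
@[simp] lemma one_v : (1 : Eg R n b r).v = 0 := rfl
@[simp] lemma one_s : (1 : Eg R n b r).s = 0 := rfl
@[simp] lemma one_g : (1 : Eg R n b r).g = 1 := rfl
@[simp] lemma inv_v (x : Eg R n b r) : (x⁻¹).v = -Lt (r x.g)⁻¹ x.v := rfl
@[simp] lemma inv_s (x : Eg R n b r) :
    (x⁻¹).s = -Lt (r x.g)⁻¹ x.s + bb b (Lt (r x.g)⁻¹ x.v) (Lt (r x.g)⁻¹ x.v) := rfl
@[simp] lemma inv_g (x : Eg R n b r) : (x⁻¹).g = x.g⁻¹ := rfl

instance : Group (Eg R n b r) where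
  mul_assoc x y z := by
    apply Eg.ext
    · simp only [mul_v, mul_g, Lt_add, Lt_Lt, add_assoc, map_mul]
    · simp only [mul_v, mul_s, mul_g, Lt_add, Lt_Lt, bb_add_left, bb_add_right, ← bb_Lt, map_mul]
      abel
    · simp only [mul_g, mul_assoc]
  one_mul x := by
    apply Eg.ext
    · simp
    · simp
    · simp
  mul_one x := by
    apply Eg.ext
    · simp
    · simp
    · simp
  inv_mul_cancel x := by
    apply Eg.ext
    · simp
    · simp [bb_neg_left]
    · simp

lemma comm_base (x y : Eg R n b r) (hx : x.g = 1) (hy : y.g = 1) :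
    ⁅x, y⁆ = ⟨0, bb b x.v y.v - bb b y.v x.v, 1⟩ := by
  have e : ⁅x, y⁆ = x * y * (y * x)⁻¹ := by rw [commutatorElement_def]; group
  rw [e, mul_inv_eq_iff_eq_mul]
  apply Eg.ext
  · simp [hx, hy, add_comm]
  · simp only [mul_s, hx, hy, Lt_one, mul_v, bb_zero_left, map_one]
    abel
  · simp [hx, hy]

lemma base_class_two (x y z : Eg R n b r) (hx : x.g = 1) (hy : y.g = 1) (hz : z.g = 1) :
    ⁅⁅x, y⁆, z⁆ = 1 := by
  rw [comm_base x y hx hy, comm_base _ z rfl hz]
  simp
  rfl

/-- projection to the top -/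
def top : Eg R n b r →* P where
  toFun x := x.g
  map_one' := rfl
  map_mul' _ _ := rfl

lemma base_pow_v (x : Eg R n b r) (hx : x.g = 1) (m : ℕ) :
    (x ^ m).g = 1 ∧ (x ^ m).v = m • x.v := by
  induction m with
  | zero => simp
  | succ m ih =>
    rw [pow_succ]
    refine ⟨by rw [mul_g, ih.1, hx, mul_one], ?_⟩
    rw [mul_v, ih.1, map_one, Lt_one, ih.2, succ_nsmul]

lemma base_pow_s (x : Eg R n b r) (hx : x.g = 1) (hv : x.v = 0) (m : ℕ) :
    (x ^ m).s = m • x.s := by
  induction m with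
  | zero => simp
  | succ m ih =>
    rw [pow_succ, mul_s, (base_pow_v x hx m).1, map_one, Lt_one, ih, succ_nsmul, Lt_one, hv,
      bb_zero_right, add_zero]

end Eg

lemma smul_fn_eq_zero {X : Type} {m : ℕ} (hm : 0 < m) {f : X → ℤ} (h : m • f = 0) : f = 0 := by
  funext i
  have h3 := congrFun h i
  simp only [Pi.smul_apply, nsmul_eq_mul, Pi.zero_apply, mul_eq_zero, Nat.cast_eq_zero] at h3
  rcases h3 with h3 | h3
  · omega
  · exact h3

lemma Eg.torsion_free {n : ℕ} {b : Mt n → ℤ} {P : Type} [Group P] {r : P →* Gm n}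
    (hP : ∀ (g : P) (m : ℕ), 0 < m → g ^ m = 1 → g = 1)
    (x : Eg ℤ n b r) (m : ℕ) (hm : 0 < m) (h : x ^ m = 1) : x = 1 := by
  have hg : x.g = 1 := by
    apply hP x.g m hm
    have h1 := congrArg (Eg.top) h
    rw [map_pow, map_one] at h1
    exact h1
  have hv : x.v = 0 := by
    apply smul_fn_eq_zero hm
    rw [← (Eg.base_pow_v x hg m).2, h]
    rfl
  have hs : x.s = 0 := by
    apply smul_fn_eq_zero hm
    rw [← Eg.base_pow_s x hg hv m, h]
    rfl
  exact Eg.ext hv hs hg

end Pool.Agent.Helper429.TF
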