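import Mathlib
import Pool.Agent.Helper429.TF.Gp

set_option autoImplicit false

namespace Pool.Agent.Helper429.TF

open scoped commutatorElement
open Ht

/-- reduction modulo two -/
abbrev r2 (n : ℕ) : Ht ℤ n →* Gm n := red (Int.castRingHom (ZMod 2))

section chi

variable {n : ℕ} (l : Fin n → ZMod 2) (j : Fin n)

/-- linear functional on matrices -/
def chi (M : Mt n) : ZMod 2 := ∑ i, l i * M i j

lemma chi_add (M M' : Mt n) : chi l j (M + M') = chi l j M + chi l j M' := by
  simp only [chi, Pi.add_apply, mul_add, Finset.sum_add_distrib]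

lemma chi_Id : chi l j (Id n) = l j := by
  simp [chi, Id]

lemma chi_tp (a : Fin n → ZMod 2) (h : ∑ i, l i * a i = 0) : chi l j (tp a) = 0 := by
  have : chi l j (tp a) = (∑ i, l i * a i) * a j := by
    rw [chi, Finset.sum_mul]
    refine Finset.sum_congr rfl fun i _ => ?_
    rw [tp]; ring
  rw [this, h, zero_mul]

/-- integral weight -/
def bz (M : Mt n) : ℤ := ((chi l j M).val : ℤ)

lemma bz_cast (M : Mt n) : ((bz l j M : ℤ) : ZMod 2) = chi l j M := by
  simp [bz]

lemma bz_shift (M z : Mt n) (hz : chi l j z = 0) : bz l j (M + z) = bz l j M := by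
  rw [bz, bz, chi_add, hz, add_zero]

/-- the subgroup of the integral group orthogonal to a vector modulo two -/
def Pl : Subgroup (Ht ℤ n) where
  carrier := {g | ∑ i, l i * (g.a i : ZMod 2) = 0}
  one_mem' := by simp
  mul_mem' := by
    intro x y hx hy
    simp only [Set.mem_setOf_eq, mul_a, Pi.add_apply, Int.cast_add, mul_add,
      Finset.sum_add_distrib] at *
    rw [hx, hy, add_zero]
  inv_mem' := by
    intro x hx
    simp only [Set.mem_setOf_eq, inv_a, Pi.neg_apply, Int.cast_neg, mul_neg,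
      Finset.sum_neg_distrib] at *
    rw [hx, neg_zero]

/-- the map of the top group -/
abbrev rl : Pl l →* Gm n := (r2 n).comp (Pl l).subtype

/-- the torsion-free groups which generate the variety -/
abbrev GG : Type := Eg ℤ n (bz l j) (rl l)

lemma Pl_torsion_free (g : Pl l) (m : ℕ) (hm : 0 < m) (h : g ^ m = 1) : g = 1 := by
  apply Subtype.ext
  apply Ht.torsion_free _ m hm
  have := congrArg (Pl l).subtype h
  rw [map_pow, map_one] at this
  exact this

lemma GG_torsion_free (x : GG l j) (m : ℕ) (hm : 0 < m) (h : x ^ m = 1) : x = 1 :=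
  Eg.torsion_free (Pl_torsion_free l) x m hm h

end chi

section words

variable {G : Type*} [Group G]

/-- left normed commutator -/
def cw (X : ℕ → G) : G := ⁅⁅X 0, X 1⁆, X 2⁆

/-- products of squares -/
def dw (X : ℕ → G) : ℕ → G
  | 0 => 1
  | k + 1 => dw X k * (X (k + 3) * X (k + 3))

/-- the words -/
def ww (X : ℕ → G) (k : ℕ) : G := ⁅dw X k * cw X * (dw X k)⁻¹, cw X⁆

variable {K : Type*} [Group K]

lemma map_cw (φ : G →* K) (X : ℕ → G) : φ (cw X) = cw (fun i => φ (X i)) := by
  simp [cw, map_commutatorElement]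

lemma map_dw (φ : G →* K) (X : ℕ → G) (k : ℕ) : φ (dw X k) = dw (fun i => φ (X i)) k := by
  induction k with
  | zero => simp [dw]
  | succ k ih => rw [dw, dw, map_mul, map_mul, ih]

lemma map_ww (φ : G →* K) (X : ℕ → G) (k : ℕ) : φ (ww X k) = ww (fun i => φ (X i)) k := by
  simp only [ww, map_commutatorElement, map_mul, map_inv, map_cw, map_dw]

end words

section eg

variable {R : Type} [CommRing R] {n : ℕ} {b : Mt n → R} {P : Type} [Group P] {r : P →* Gm n}

/-- the sum of the tensor squares -/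
def es (r : P →* Gm n) (X : ℕ → Eg R n b r) (k : ℕ) : Mt n :=
  ∑ i ∈ Finset.range k, tp (r (X (i + 3)).g).a

lemma dw_g (X : ℕ → Eg R n b r) (k : ℕ) : r (dw X k).g = io (es r X k) := by
  induction k with
  | zero => simp [dw, es]; rfl
  | succ k ih =>
    rw [dw, Eg.mul_g, Eg.mul_g, map_mul, map_mul, ih, sq, io_mul, es, es, Finset.sum_range_succ]

lemma ww_eq (X : ℕ → Eg R n b r) (k : ℕ) (hc : (cw X).g = 1) : ww X k =
    ⟨0, bb b (Lt (io (es r X k)) (cw X).v) (cw X).v -
      bb b (cw X).v (Lt (io (es r X k)) (cw X).v), 1⟩ := by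
  have h1 : (dw X k * cw X * (dw X k)⁻¹).v = Lt (io (es r X k)) (cw X).v := by
    simp only [Eg.mul_v, Eg.mul_g, Eg.inv_v, hc, mul_one, Lt_neg, Lt_Lt, mul_inv_cancel, Lt_one,
      dw_g]
    abel
  rw [ww, Eg.comm_base _ _ (by simp [hc]) hc, h1]

end eg

lemma cw_top {R : Type} [CommRing R] {n : ℕ} {b : Mt n → R} {P : Type} [Group P] {r : P →* Gm n}
    (hP : ∀ x y z : P, ⁅⁅x, y⁆, z⁆ = 1) (X : ℕ → Eg R n b r) : (cw X).g = 1 := by
  have h := map_cw (Eg.top (b := b) (r := r)) X
  change (cw X).g = _ at h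
  rw [h]
  exact hP _ _ _

lemma Pl_class_two {n : ℕ} (l : Fin n → ZMod 2) (x y z : Pl l) : ⁅⁅x, y⁆, z⁆ = 1 := by
  apply Subtype.ext
  exact Ht.class_two _ _ _

lemma ww_law {n : ℕ} (l : Fin n → ZMod 2) (j : Fin n) (X : ℕ → GG l j) (k : ℕ) :
    ww X k = 1 := by
  rw [ww_eq X k (cw_top (Pl_class_two l) X)]
  rw [bb_shift_zero]
  · rfl
  · intro M
    apply bz_shift
    have : ∀ m : ℕ, chi l j (es (rl l) X m) = 0 := by
      intro m
      induction m with
      | zero => simp [es, chi]
      | succ m ih =>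
        rw [es, Finset.sum_range_succ, chi_add]
        rw [es] at ih
        rw [ih, zero_add]
        apply chi_tp
        exact (X (m + 3)).g.2
    exact this k

/-! ### the witness group -/

section witness

variable {n : ℕ} (p : Fin n)

/-- the weight of the witness -/
def b0 (M : Mt n) : ZMod 2 := M p p

/-- the witness group -/
abbrev WG : Type := Eg (ZMod 2) n (b0 p) (r2 n)

variable (l : Fin n → ZMod 2) (j : Fin n)

/-- the quadratic correction -/
def qq (v : Fn (ZMod 2) n) : Fn (ZMod 2) n :=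
  fun x => ∑ M : Mt n, (1 + M p p) * (chi l j M + M p p) * (v (x * io M) * v (x * io (M + Id n)))

lemma qq_Lt (g : Gm n) (v : Fn (ZMod 2) n) : qq p l j (Lt g v) = Lt g (qq p l j v) := by
  ext x
  simp only [qq, Lt, mul_assoc]

lemma qq_add (hj : l j = 1) (v w : Fn (ZMod 2) n) :
    qq p l j (v + w) = qq p l j v + qq p l j w + bb (chi l j) v w + bb (b0 p) v w := by
  ext x
  have h1 : qq p l j (v + w) x = qq p l j v x + qq p l j w x +
      ((∑ M : Mt n, (1 + M p p) * (chi l j M + M p p) * (v (x * io M) * w (x * io (M + Id n)))) +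
      ∑ M : Mt n, (1 + M p p) * (chi l j M + M p p) * (w (x * io M) * v (x * io (M + Id n)))) := by
    simp only [qq, ← Finset.sum_add_distrib, Pi.add_apply]
    refine Finset.sum_congr rfl fun M _ => ?_
    ring
  have h2 : ∑ M : Mt n, (1 + M p p) * (chi l j M + M p p) *
      (w (x * io M) * v (x * io (M + Id n))) =
      ∑ M : Mt n, (M p p) * (chi l j M + M p p) * (v (x * io M) * w (x * io (M + Id n))) := by
    refine Fintype.sum_equiv (Equiv.addRight (Id n)) _ _ ?_
    intro M
    have h3 : (Equiv.addRight (Id n) M) p p = 1 + M p p := by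
      simp [Id, add_comm]
    have h4 : (Equiv.addRight (Id n) M) + Id n = M := by
      simp only [Equiv.coe_addRight]
      rw [add_assoc, mt_add_self, add_zero]
    have h5 : chi l j (Equiv.addRight (Id n) M) = 1 + chi l j M := by
      simp only [Equiv.coe_addRight]
      rw [chi_add, chi_Id, hj, add_comm]
    rw [h3, h4, h5]
    have h6 : ∀ a b c d : ZMod 2, (1 + a) * (b + a) * (c * d) =
      (1 + a) * (1 + b + (1 + a)) * (d * c) := by decide
    exact h6 _ _ _ _
  rw [h1, h2, ← Finset.sum_add_distrib]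
  simp only [Pi.add_apply]
  rw [add_assoc _ (bb (chi l j) v w x)]
  congr 1
  rw [bb, bb, ← Finset.sum_add_distrib]
  refine Finset.sum_congr rfl fun M _ => ?_
  simp only [b0]
  have h6 : ∀ a b c d : ZMod 2, (1 + a) * (b + a) * (c * d) + a * (b + a) * (c * d) =
      b * c * d + a * c * d := by decide
  exact h6 _ _ _ _

/-- reduction of functions modulo two -/
def cf (v : Fn ℤ n) : Fn (ZMod 2) n := fun x => (v x : ZMod 2)

lemma cf_add (v w : Fn ℤ n) : cf (v + w) = cf v + cf w := by
  ext x; simp [cf]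

lemma cf_Lt (g : Gm n) (v : Fn ℤ n) : cf (Lt g v) = Lt g (cf v) := rfl

lemma cf_bb (v w : Fn ℤ n) : cf (bb (bz l j) v w) = bb (chi l j) (cf v) (cf w) := by
  ext x
  simp only [cf, bb, Int.cast_sum, Int.cast_mul, bz_cast]

/-- the reduction of the torsion-free groups to the witness -/
def pr (hj : l j = 1) : GG l j →* WG p where
  toFun x := ⟨cf x.v, cf x.s + qq p l j (cf x.v), (x.g : Ht ℤ n)⟩
  map_one' := by
    apply Eg.ext
    · ext x; simp [cf]
    · ext x; simp [cf, qq]
    · rfl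
  map_mul' x y := by
    apply Eg.ext
    · simp only [Eg.mul_v, cf_add, cf_Lt]
      rfl
    · have e : (rl l) x.g = (r2 n) (x.g : Ht ℤ n) := rfl
      simp only [Eg.mul_v, Eg.mul_s, cf_add, cf_Lt, cf_bb, qq_add p l j hj, qq_Lt, Lt_add, e]
      have h6 : ∀ f : Fn (ZMod 2) n, f + f = 0 := by
        intro f
        ext x
        exact CharTwo.add_self_eq_zero _
      set A := cf x.s
      set B := Lt ((r2 n) (x.g : Ht ℤ n)) (cf y.s)
      set C := bb (chi l j) (cf x.v) (Lt ((r2 n) (x.g : Ht ℤ n)) (cf y.v))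
      set D := bb (b0 p) (cf x.v) (Lt ((r2 n) (x.g : Ht ℤ n)) (cf y.v))
      set E := qq p l j (cf x.v)
      set G := Lt ((r2 n) (x.g : Ht ℤ n)) (qq p l j (cf y.v))
      have : A + B + C + (E + G + C + D) = (A + E + (B + G) + D) + (C + C) := by abel
      rw [this, h6, add_zero]
    · rfl

lemma pr_surj (hj : l j = 1) (y : WG p) (hy : y.g ∈ Pl l) : ∃ x : GG l j, pr p l j hj x = y := by
  have hlift : ∀ f : Fn (ZMod 2) n, ∃ f' : Fn ℤ n, cf f' = f := by
    intro f
    refine ⟨fun x => ((f x).val : ℤ), ?_⟩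
    ext x
    simp [cf]
  obtain ⟨v, hv⟩ := hlift y.v
  obtain ⟨s, hs⟩ := hlift (y.s - qq p l j y.v)
  refine ⟨⟨v, s, ⟨y.g, hy⟩⟩, ?_⟩
  apply Eg.ext
  · exact hv
  · change cf s + qq p l j (cf v) = y.s
    rw [hv, hs, sub_add_cancel]
  · rfl

/-- integrate a function along the centre -/
def bar (v : Fn (ZMod 2) n) : (Fin n → ZMod 2) → ZMod 2 := fun a => ∑ M : Mt n, v ⟨a, M⟩

lemma bar_add (v w : Fn (ZMod 2) n) (y : Fin n → ZMod 2) :
    bar (v + w) y = bar v y + bar w y := by
  simp [bar, Finset.sum_add_distrib]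

lemma bar_neg (v : Fn (ZMod 2) n) (y : Fin n → ZMod 2) : bar (-v) y = bar v y := by
  simp only [bar, Pi.neg_apply, CharTwo.neg_eq]

lemma bar_Lt (g : Gm n) (v : Fn (ZMod 2) n) (y : Fin n → ZMod 2) :
    bar (Lt g v) y = bar v (y + g.a) := by
  simp only [bar, Lt]
  refine Fintype.sum_equiv
    (Equiv.addRight (fun i k => (g⁻¹).M i k + (g⁻¹).a i * y k)) _ _ ?_
  intro M
  congr 1
  refine ext' (fun i => ?_) (fun i k => ?_)
  · simp [CharTwo.neg_eq, add_comm]
  · simp only [mul_M, Equiv.coe_addRight, Pi.add_apply]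
    ring

variable {p}

lemma bar_comm (x y : WG p) (hx : (r2 n x.g).a = 0) (u : Fin n → ZMod 2) :
    bar (⁅x, y⁆).v u = bar x.v u + bar x.v (u + (r2 n y.g).a) := by
  rw [commutatorElement_def]
  simp only [Eg.mul_v, Eg.mul_g, Eg.inv_v, Eg.inv_g, bar_add, bar_Lt, mul_a, inv_a, map_mul,
    map_inv, hx, CharTwo.neg_eq, zero_add, add_zero, neg_zero]
  have h5 : u + (r2 n y.g).a + -(r2 n y.g).a = u := add_neg_cancel_right _ _
  have h6 : ∀ a b c : ZMod 2, a + b + c + b = a + c := by decide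
  rw [h5]
  exact h6 _ _ _

lemma bb_Id (hn : ∀ i, (Id n) i i = 1) (v : Fn (ZMod 2) n) (x : Gm n) :
    (bb (b0 p) (Lt (io (Id n)) v) v - bb (b0 p) v (Lt (io (Id n)) v)) x = bar v x.a := by
  rw [bb_shift]
  refine Fintype.sum_equiv (Equiv.addRight x.M) _ _ ?_
  intro M
  have h0 : M + Id n + Id n = M := by rw [add_assoc, mt_add_self, add_zero]
  have h1 : x * io M = ⟨x.a, (Equiv.addRight x.M) M⟩ := by
    refine ext' (fun i => ?_) (fun i k => ?_)
    · simp
    · simp [add_comm]
  have h2 : b0 p (M + Id n) - b0 p M = 1 := by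
    simp only [b0, Pi.add_apply, hn]
    ring
  rw [h0, h2, h1]
  have : ∀ a : ZMod 2, 1 * (a * a) = a := by decide
  exact this _

end witness

end Pool.Agent.Helper429.TF
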