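import Mathlib
import Pool.Agent.Helper429.TF.Par

set_option autoImplicit false

namespace Pool.Agent.Helper429.TF

open scoped commutatorElement
open Ht

universe u

/-- the free group of countable rank -/
abbrev F : Type := FreeGroup ℕ

/-! ### the witness violates a law -/

section

variable (n : ℕ)

/-- integral unit vectors -/
def eZ (d i : ℕ) : Ht ℤ d := ⟨fun q => if q.val = i then 1 else 0, 0⟩

open Classical in
/-- the witnessing assignment -/
noncomputable def XX : ℕ → WG (0 : Fin (n + 2))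
  | 0 => ⟨fun x => if x = 1 then 1 else 0, 0, 1⟩
  | 1 => ⟨0, 0, eZ _ 0⟩
  | 2 => ⟨0, 0, eZ _ 1⟩
  | i + 3 => ⟨0, 0, eZ _ i⟩

lemma es_XX : es (r2 (n + 2)) (XX n) (n + 2) = Id (n + 2) := by
  ext p q
  rw [es, Finset.sum_apply, Finset.sum_apply]
  simp only [XX, tp, eZ, Id, red_a, eq_intCast, Int.cast_ite, Int.cast_one, Int.cast_zero]
  by_cases hpq : p = q
  · subst hpq
    rw [Finset.sum_eq_single p.val]
    · simp
    · intro b _ hb
      rw [if_neg (Ne.symm hb), mul_zero]
    · intro h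
      exact absurd (Finset.mem_range.mpr p.isLt) h
  · rw [if_neg hpq]
    refine Finset.sum_eq_zero fun i _ => ?_
    by_cases h3 : p.val = i
    · rw [if_neg (c := q.val = i), mul_zero]
      intro h4
      exact hpq (Fin.ext (h3.trans h4.symm))
    · rw [if_neg h3, zero_mul]

lemma bar_XX (y : Fin (n + 2) → ZMod 2) : bar (XX n 0).v y = if y = 0 then 1 else 0 := by
  classical
  have h0 : (XX n 0).v = fun x => if x = 1 then 1 else 0 := rfl
  rw [h0, bar]
  by_cases hy : y = 0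
  · subst hy
    rw [if_pos rfl, Finset.sum_eq_single 0]
    · exact if_pos rfl
    · intro M _ hM
      rw [if_neg]
      intro h
      exact hM (congrArg Ht.M h)
    · intro h; exact absurd (Finset.mem_univ _) h
  · rw [if_neg hy]
    refine Finset.sum_eq_zero fun M _ => ?_
    rw [if_neg]
    intro h
    exact hy (congrArg Ht.a h)

lemma bar_cw : bar (cw (XX n)).v 0 = 1 := by
  have h1 : (r2 (n + 2) (XX n 0).g).a = 0 := by
    change (r2 (n + 2) 1).a = 0
    rw [map_one]
    rfl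
  have h2 : (r2 (n + 2) (⁅XX n 0, XX n 1⁆).g).a = 0 := by
    have : (⁅XX n 0, XX n 1⁆).g = ⁅(XX n 0).g, (XX n 1).g⁆ :=
      map_commutatorElement (Eg.top (b := b0 0) (r := r2 (n + 2))) _ _
    rw [this, map_commutatorElement, Ht.comm_a]
  rw [cw, bar_comm _ _ h2, bar_comm _ _ h1, bar_comm _ _ h1]
  simp only [bar_XX]
  have h01 : ∀ (x : Fin (n + 2) → ZMod 2) (i : Fin (n + 2)), x i = 1 → ¬ x = 0 := by
    intro x i hx h
    rw [h] at hx
    exact zero_ne_one hx
  rw [if_pos trivial, if_neg (h01 _ ⟨0, by omega⟩ (by simp [XX, eZ])),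
    if_neg (h01 _ ⟨1, by omega⟩ (by simp [XX, eZ])),
    if_neg (h01 _ ⟨0, by omega⟩ (by simp [XX, eZ]))]
  simp

lemma ww_XX : ww (XX n) (n + 2) ≠ 1 := by
  intro h
  rw [ww_eq (XX n) (n + 2) (cw_top (fun x y z => Ht.class_two x y z) _)] at h
  have h1 := congrArg Eg.s h
  have h2 := congrFun h1 1
  simp only [es_XX] at h2
  rw [bb_Id (fun i => by simp [Id])] at h2
  rw [show (1 : Gm (n + 2)).a = 0 from rfl, bar_cw] at h2
  exact one_ne_zero h2

end

/-! ### the laws -/

/-- the laws of the torsion-free groups -/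
def NN : Set F :=
  {w | ∀ (n : ℕ) (l : Fin n → ZMod 2) (j : Fin n), l j = 1 → ∀ φ : F →* GG l j, φ w = 1}

lemma ww_mem (k : ℕ) : ww (FreeGroup.of : ℕ → F) k ∈ NN := by
  intro n l j _ φ
  rw [map_ww]
  exact ww_law l j _ k

/-- the laws of the top groups -/
def AA : Set F := {w | ∀ (n : ℕ) (φ : F →* Ht ℤ n), φ w = 1}

lemma AA_base {w : F} (hw : w ∈ AA) {n : ℕ} {l : Fin n → ZMod 2} {j : Fin n} (φ : F →* GG l j) :
    (φ w).g = 1 := by
  apply Subtype.ext
  exact hw n ((Pl l).subtype.comp ((Eg.top (b := bz l j) (r := rl l)).comp φ))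

lemma AA_comm (x y z : F) : ⁅⁅x, y⁆, z⁆ ∈ AA := by
  intro n φ
  rw [map_commutatorElement, map_commutatorElement]
  exact Ht.class_two _ _ _

/-- variables to even variables -/
def ev : F →* F := FreeGroup.lift (fun i => FreeGroup.of (2 * i))
/-- variables to odd variables -/
def od : F →* F := FreeGroup.lift (fun i => FreeGroup.of (2 * i + 1))

/-- combine two assignments -/
def comb {G : Type u} [Group G] (φ ψ : F →* G) : F →* G :=
  FreeGroup.lift (fun i => if i % 2 = 0 then φ (FreeGroup.of (i / 2)) else ψ (FreeGroup.of (i / 2)))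

lemma comb_ev {G : Type u} [Group G] (φ ψ : F →* G) (w : F) : comb φ ψ (ev w) = φ w := by
  have : (comb φ ψ).comp ev = φ := by
    ext i
    simp [comb, ev]
  exact DFunLike.congr_fun this w

lemma comb_od {G : Type u} [Group G] (φ ψ : F →* G) (w : F) : comb φ ψ (od w) = ψ w := by
  have : (comb φ ψ).comp od = ψ := by
    ext i
    simp only [MonoidHom.coe_comp, Function.comp_apply, comb, od, FreeGroup.lift_apply_of]
    have h1 : (2 * i + 1) % 2 = 1 := by omega
    have h2 : (2 * i + 1) / 2 = i := by omega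
    simp [h1, h2]
  exact DFunLike.congr_fun this w

/-- the subgroup of the values of the laws of the top groups -/
def Kk (G : Type u) [Group G] : Subgroup G where
  carrier := {g | ∃ w ∈ AA, ∃ φ : F →* G, φ w = g}
  one_mem' := ⟨1, fun n φ => map_one φ, 1, by simp⟩
  mul_mem' := by
    rintro a b ⟨w, hw, φ, rfl⟩ ⟨v, hv, ψ, rfl⟩
    refine ⟨ev w * od v, ?_, comb φ ψ, by rw [map_mul, comb_ev, comb_od]⟩
    intro n χ
    have h1 := hw n (χ.comp ev)
    have h2 := hv n (χ.comp od)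
    rw [MonoidHom.comp_apply] at h1 h2
    rw [map_mul, h1, h2, one_mul]
  inv_mem' := by
    rintro a ⟨w, hw, φ, rfl⟩
    exact ⟨w⁻¹, fun n χ => by rw [map_inv, hw n χ, inv_one], φ, by rw [map_inv]⟩

lemma Kk_normal (G : Type u) [Group G] : (Kk G).Normal := by
  constructor
  rintro n ⟨w, hw, φ, rfl⟩ g
  exact ⟨w, hw, ((MulAut.conj g).toMonoidHom).comp φ, rfl⟩

lemma Kk_comm {G : Type u} [Group G] (x y z : G) : ⁅⁅x, y⁆, z⁆ ∈ Kk G := by
  refine ⟨⁅⁅FreeGroup.of 0, FreeGroup.of 1⁆, FreeGroup.of 2⁆, AA_comm _ _ _,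
    FreeGroup.lift (fun i => if i = 0 then x else if i = 1 then y else z), ?_⟩
  simp [map_commutatorElement]

lemma Kk_class {G : Type u} [Group G] (hG : ∀ w ∈ NN, ∀ φ : F →* G, φ w = 1)
    {x y z : G} (hx : x ∈ Kk G) (hy : y ∈ Kk G) (hz : z ∈ Kk G) : ⁅⁅x, y⁆, z⁆ = 1 := by
  obtain ⟨w1, h1, φ1, rfl⟩ := hx
  obtain ⟨w2, h2, φ2, rfl⟩ := hy
  obtain ⟨w3, h3, φ3, rfl⟩ := hz
  have h := hG ⁅⁅ev w1, od (ev w2)⁆, od (od w3)⁆ ?_ (comb φ1 (comb φ2 φ3))
  · rw [map_commutatorElement, map_commutatorElement, comb_ev, comb_od, comb_od, comb_ev,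
      comb_od] at h
    exact h
  · intro n l j _ ψ
    rw [map_commutatorElement, map_commutatorElement]
    apply Eg.base_class_two
    · exact AA_base h1 (ψ.comp ev)
    · exact AA_base h2 ((ψ.comp od).comp ev)
    · exact AA_base h3 ((ψ.comp od).comp od)

lemma lcs_two {H : Type u} [Group H] (h : ∀ x y z : H, ⁅⁅x, y⁆, z⁆ = 1) :
    Group.IsNilpotent H ∧ Group.nilpotencyClass H ≤ 2 := by
  suffices hs : Subgroup.lowerCentralSeries (⊤ : Subgroup H) 2 = ⊥ by
    have hn : Group.IsNilpotent H := Subgroup.nilpotent_iff_lowerCentralSeries.mpr ⟨2, hs⟩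
    exact ⟨hn, Subgroup.lowerCentralSeries_eq_bot_iff_nilpotencyClass_le.mp hs⟩
  rw [eq_bot_iff]
  change ⁅⁅(⊤ : Subgroup H), ⊤⁆, ⊤⁆ ≤ ⊥
  rw [Subgroup.commutator_le]
  intro x hx y _
  have h1 : ⁅(⊤ : Subgroup H), ⊤⁆ ≤ Subgroup.center H := by
    rw [Subgroup.commutator_le]
    intro a _ b _
    rw [Subgroup.mem_center_iff]
    intro c
    exact (commutatorElement_eq_one_iff_mul_comm.mp (h a b c)).symm
  have h2 := Subgroup.mem_center_iff.mp (h1 hx) y
  rw [Subgroup.mem_bot, commutatorElement_eq_one_iff_mul_comm]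
  exact h2.symm

/-! ### not finitely based -/

lemma exists_support (w : F) : ∃ m : ℕ, ∀ (G : Type) [Group G] (φ ψ : F →* G),
    (∀ i < m, φ (FreeGroup.of i) = ψ (FreeGroup.of i)) → φ w = ψ w := by
  refine FreeGroup.induction_on w ?_ ?_ ?_ ?_
  · exact ⟨0, fun G _ φ ψ _ => by rw [map_one, map_one]⟩
  · intro i
    exact ⟨i + 1, fun G _ φ ψ h => h i (Nat.lt_succ_self i)⟩
  · intro i hi
    obtain ⟨m, hm⟩ := hi
    exact ⟨m, fun G _ φ ψ h => by rw [map_inv, map_inv]; exact congrArg _ (hm G φ ψ h)⟩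
  · intro x y hx hy
    obtain ⟨m, hm⟩ := hx
    obtain ⟨m', hm'⟩ := hy
    refine ⟨max m m', fun G _ φ ψ h => ?_⟩
    rw [map_mul, map_mul, hm G φ ψ (fun i hi => h i (lt_of_lt_of_le hi (le_max_left _ _))),
      hm' G φ ψ (fun i hi => h i (lt_of_lt_of_le hi (le_max_right _ _)))]

lemma exists_support_finite (S : Set F) (hS : S.Finite) : ∃ m : ℕ, ∀ w ∈ S,
    ∀ (G : Type) [Group G] (φ ψ : F →* G),
    (∀ i < m, φ (FreeGroup.of i) = ψ (FreeGroup.of i)) → φ w = ψ w := by
  choose m hm using exists_support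
  obtain ⟨B, hB⟩ := (hS.image m).bddAbove
  refine ⟨B, fun w hw G _ φ ψ h => hm w G φ ψ fun i hi => h i (lt_of_lt_of_le hi ?_)⟩
  exact hB ⟨w, hw, rfl⟩

lemma exists_orth {m d : ℕ} (h : m < d) (a : ℕ → Fin d → ZMod 2) :
    ∃ (l : Fin d → ZMod 2) (j : Fin d), l j = 1 ∧ ∀ i < m, ∑ k, l k * a i k = 0 := by
  let f : (Fin d → ZMod 2) → (Fin m → ZMod 2) := fun l i => ∑ k, l k * a i k
  have hf : ¬ Function.Injective f := by
    intro hf
    have hcard := Fintype.card_le_of_injective f hf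
    rw [Fintype.card_fun, Fintype.card_fun, Fintype.card_fin, Fintype.card_fin, ZMod.card] at hcard
    have := (Nat.pow_le_pow_iff_right (by norm_num)).mp hcard
    omega
  rw [Function.Injective] at hf
  push Not at hf
  obtain ⟨x, y, hxy, hne⟩ := hf
  have hne' : ∃ j, x j ≠ y j := by
    by_contra hcon
    push Not at hcon
    exact hne (funext hcon)
  obtain ⟨j, hj⟩ := hne'
  refine ⟨x - y, j, ?_, ?_⟩
  · have : ∀ s t : ZMod 2, s ≠ t → s - t = 1 := by decide
    exact this _ _ hj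
  · intro i hi
    have := congrFun hxy ⟨i, hi⟩
    simp only [f] at this
    simp only [Pi.sub_apply, sub_mul, Finset.sum_sub_distrib]
    rw [this, sub_self]

/-- words in few variables which are laws hold in the witness -/
theorem WG_sat {m n : ℕ} (hmn : m < n) (p : Fin n) (w : F) (hw : w ∈ NN)
    (hs : ∀ (G : Type) [Group G] (φ ψ : F →* G),
      (∀ i < m, φ (FreeGroup.of i) = ψ (FreeGroup.of i)) → φ w = ψ w)
    (φ : F →* WG p) : φ w = 1 := by
  obtain ⟨l, j, hj, hl⟩ := exists_orth hmn (fun i => (r2 n (φ (FreeGroup.of i)).g).a)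
  let y : ℕ → WG p := fun i => if i < m then φ (FreeGroup.of i) else 1
  have hy : ∀ i, (y i).g ∈ Pl l := by
    intro i
    by_cases hi : i < m
    · simp only [y, if_pos hi]
      exact hl i hi
    · simp only [y, if_neg hi]
      exact (Pl l).one_mem
  choose x hx using fun i => pr_surj p l j hj (y i) (hy i)
  have h1 : φ w = (FreeGroup.lift y) w := by
    apply hs
    intro i hi
    rw [FreeGroup.lift_apply_of]
    simp only [y, if_pos hi]
  have h2 : FreeGroup.lift y = (pr p l j hj).comp (FreeGroup.lift x) := by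
    ext1 i
    rw [MonoidHom.comp_apply, FreeGroup.lift_apply_of, FreeGroup.lift_apply_of, hx]
  rw [h1, h2, MonoidHom.comp_apply, hw n l j hj, map_one]

end Pool.Agent.Helper429.TF
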